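import Mathlib
import Pool.Agent.Lib.helper29.Krein3

set_option autoImplicit false

namespace Pool.Agent.Results.MP_f4ec25_an.NormExt

open MeasureTheory Pool.Agent.Lib.H29.Krein

/-- Every measurable element of `R_A` has a measurable extension of the same norm. -/
theorem result : ∀ A : ℝ, 0 < A → ∀ f : ℝ → ℂ, InR (Set.Ioo (-A) A) f →
    AEMeasurable f (volume.restrict (Set.Ioo (-A) A)) →
    ∃ g : ℝ → ℂ, (∀ x ∈ Set.Ioo (-A) A, g x = f x) ∧ AEMeasurable g volume ∧ InR Set.univ g ∧
      nrm Set.univ g = nrm (Set.Ioo (-A) A) f :=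
  fun _ _ _ h hm => ext_meas isOpen_Ioo h hm

end Pool.Agent.Results.MP_f4ec25_an.NormExt
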